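import Pool.Agent.R489.HB.Pieces
import Pool.Agent.R489.HB.Splb
import Pool.Agent.R489.HC.Final
import Pool.Agent.R489.HC.Sphx
import Pool.Agent.R489.HC.Parx
import Pool.Agent.R489.HC.Rep
import Pool.Agent.R489.HC.Att

/-!
# Three colours for half-radius ball covers of planar metric graphs

For every finite planar graph `G` the continuous graph of `G` is `(1/2, 3)`-colourable. The
definitions of the statement are in `Pool/Agent/R489/HC/Defs.lean`.
-/

set_option autoImplicit false

namespace Pool.Agent.Results.MP_ffa969_co.HalfRadius

open Pool.Agent.R489.HC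

theorem result (V : Type) [Fintype V] [DecidableEq V] (G : SimpleGraph V) (hG : Planar G) :
    Colourable G (1 / 2) 3 :=
  transfer ATT REP1 REP2 (Pool.Agent.R489.HB.all_but_splb Pool.Agent.R489.HB.SPLB V G
    (planar_of Sx.SPHX PARX hG))

end Pool.Agent.Results.MP_ffa969_co.HalfRadius
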